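import Pool.Agent.Helper6.AU.Dbl
import Pool.Agent.Helper82.AN.EtaLip

/-! # Project AU (MP_9ee088_an), block U5: growth (second proof) -/

set_option autoImplicit false
open MeasureTheory Real Set Filter Topology
open scoped ENNReal

namespace Pool.Agent.Helper94.AU

open Pool.Agent.Helper18.UC (nn LL sqo rep toT)
open Pool.Agent.Helper46.QP (TT Td)
open Pool.Agent.Helper82.AN (Ow lawL eta Hw sq SepR)
open Pool.Agent.Helper95.AF (st po mt pM shb Fa gA up5 un5 frc DC Ho)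
open Pool.Agent.Helper95.AU

variable {d : ℕ}

theorem ho_cont {f : Td d → ℝ} (hf : Ho f) : Continuous f := by
  obtain ⟨K, r, hr, h⟩ := hf
  rw [continuous_iff_continuousAt]
  intro x
  rw [ContinuousAt, tendsto_iff_dist_tendsto_zero]
  have h1 : Tendsto (fun y => K * dist y x ^ r) (𝓝 x) (𝓝 (K * (dist x x) ^ r)) := by
    refine Tendsto.const_mul K ?_
    exact ((continuous_id.dist continuous_const).tendsto x).rpow_const (Or.inr hr.le)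
  rw [dist_self, Real.zero_rpow hr.ne', mul_zero] at h1
  refine squeeze_zero (fun _ => dist_nonneg) (fun y => ?_) h1
  rw [Real.dist_eq]
  exact h y x

theorem frc_cont {γ : ℝ} {k : ℕ} {e : Fin k → Td d → ℝ} (he : ∀ i, Continuous (e i)) (U : Fin (k + 1) → ℝ) {w : Ow d}
    (hw : Hw γ w ≠ ∞) : Continuous (frc γ e U w) := by
  unfold frc
  exact (continuous_finsetSum _ fun i _ => continuous_const.mul (he i)).add
    (continuous_const.mul (Pool.Agent.Helper82.AN.eta_cont hw))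

/-- the scales, two consecutive entries -/
theorem scales {δ ε c b : ℝ} (hδ : 0 < δ) (hδ8 : δ < c / 8) (hδε : δ < ε / 14) (hc2 : c < 2)
    (hb : 0 < b) {C₁ C₂ κ₁ : ℝ} (hC : 0 ≤ C₁) (hC₂ : 0 ≤ C₂) (hκ₁ : 0 < κ₁) (i₁ : ℕ) {D : ℕ} (hD : 4 / c ≤ D) :
    ∃ X : ℝ, ∀ x : ℝ, X ≤ x → 1 ≤ x ∧ 1 ≤ b * x ∧ 4 ≤ x ^ δ ∧ ∃ i₀ : ℕ, i₁ ≤ i₀ ∧
      x ≤ (2 : ℝ) ^ (D * i₀) ∧ x ^ (c - ε) ≤ (2 : ℝ) ^ ((1 - 2 * δ) * i₀) ∧
      C₁ * (2 : ℝ) ^ (-δ * i₀) + 4 / x ^ δ +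
        (2 : ℝ) ^ i₀ * (C₂ * (x ^ δ / (b * x) ^ 2) ^ (c / 2)) * Real.log (2 * π * (κ₁ * x) + 4) ≤
          x ^ (-(δ * c / 4)) := by
  have hε : 0 < ε := by linarith
  have hc : 0 < c := by linarith
  set c₂ : ℝ := (2 * π * κ₁ + 4) ^ δ / δ with hc₂
  have hc₂0 : 0 ≤ c₂ := by positivity
  set C₃ : ℝ := C₂ * (1 / b ^ 2) ^ (c / 2) with hC₃
  have hC₃0 : 0 ≤ C₃ := by positivity
  set Ct : ℝ := 2 * C₁ + 4 + C₃ * c₂ with hCt
  have e1 := (tendsto_rpow_atTop hδ).eventually_ge_atTop (4 : ℝ)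
  have e2 := (tendsto_rpow_atTop (show 0 < δ * c / 4 by positivity)).eventually_ge_atTop Ct
  have e3 := (Real.tendsto_logb_atTop (b := 2) one_lt_two).eventually_ge_atTop
    (2 / ε + (((max i₁ 2 : ℕ) : ℝ) + 1) * (2 / c))
  obtain ⟨X, hX⟩ := Filter.eventually_atTop.1 ((Filter.eventually_ge_atTop (max 1 (1 / b))).and ((e1.and e2).and e3))
  refine ⟨X, fun x hx => ?_⟩
  obtain ⟨h1', ⟨hV, hCx⟩, hl⟩ := hX x hx
  have h1 : 1 ≤ x := (le_max_left _ _).trans h1'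
  have hb1 : 1 / b ≤ x := (le_max_right _ _).trans h1'
  have hx0 : 0 < x := zero_lt_one.trans_le h1
  refine ⟨h1, ?_, hV, ?_⟩
  · rw [div_le_iff₀ hb] at hb1
    linarith
  set ℓ := Real.logb 2 x with hℓ
  have hxl : x = (2 : ℝ) ^ ℓ := (Real.rpow_logb two_pos (by norm_num) hx0).symm
  have hpos2 : 0 < 2 / ε := by positivity
  have hM0 : (0 : ℝ) ≤ ((max i₁ 2 : ℕ) : ℝ) := Nat.cast_nonneg _
  have hMc : 0 ≤ (((max i₁ 2 : ℕ) : ℝ) + 1) * (2 / c) := by positivity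
  have hl0 : 0 ≤ ℓ := by linarith
  have hl1 : (((max i₁ 2 : ℕ) : ℝ) + 1) * (2 / c) ≤ ℓ := by linarith
  have hl1' : ((max i₁ 2 : ℕ) : ℝ) + 1 ≤ c / 2 * ℓ := by
    have h := mul_le_mul_of_nonneg_left hl1 (show 0 ≤ c / 2 by positivity)
    have h' : c / 2 * ((((max i₁ 2 : ℕ) : ℝ) + 1) * (2 / c)) = ((max i₁ 2 : ℕ) : ℝ) + 1 := by field_simp
    linarith
  have hl2 : 2 / ε ≤ ℓ := by linarith
  have hl3 : 1 ≤ ε / 2 * ℓ := by
    rw [div_le_iff₀ hε] at hl2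
    linarith
  have hxs : ∀ s : ℝ, x ^ s = (2 : ℝ) ^ (ℓ * s) := fun s => by
    rw [hxl, ← Real.rpow_mul two_pos.le]
  have hy1 : 1 ≤ x ^ (c - 3 * δ) := Real.one_le_rpow h1 (by linarith)
  have hN : ⌊x ^ (c - 3 * δ)⌋₊ ≠ 0 := (Nat.floor_pos.2 hy1).ne'
  set i₀ := Nat.log 2 ⌊x ^ (c - 3 * δ)⌋₊ with hi₀
  have ha : (2 : ℝ) ^ i₀ ≤ x ^ (c - 3 * δ) := by
    have h := Nat.pow_log_le_self 2 hN
    have h' : ((2 ^ i₀ : ℕ) : ℝ) ≤ (⌊x ^ (c - 3 * δ)⌋₊ : ℝ) := by exact_mod_cast h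
    push_cast at h'
    exact h'.trans (Nat.floor_le (by linarith))
  have hb2 : x ^ (c - 3 * δ) < (2 : ℝ) ^ (i₀ + 1) := by
    have h := Nat.lt_pow_succ_log_self (b := 2) one_lt_two ⌊x ^ (c - 3 * δ)⌋₊
    have h' : ((⌊x ^ (c - 3 * δ)⌋₊ + 1 : ℕ) : ℝ) ≤ ((2 ^ (i₀ + 1) : ℕ) : ℝ) := by exact_mod_cast h
    push_cast at h'
    exact (Nat.lt_floor_add_one _).trans_le h'
  have hb' : ℓ * (c - 3 * δ) < i₀ + 1 := by
    rw [hxs, ← Real.rpow_natCast] at hb2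
    have := (Real.rpow_lt_rpow_left_iff one_lt_two).1 hb2
    push_cast at this
    exact this
  have h34 : c / 2 * ℓ ≤ ℓ * (c - 3 * δ) := by nlinarith
  have hmi : ((max i₁ 2 : ℕ) : ℝ) < i₀ := by linarith
  have hmi' : max i₁ 2 < i₀ := by exact_mod_cast hmi
  have h2i : (2 : ℝ) ≤ i₀ := by
    have : 2 < i₀ := (le_max_right _ _).trans_lt hmi'
    exact_mod_cast this.le
  refine ⟨i₀, ((le_max_left _ _).trans_lt hmi').le, ?_, ?_, ?_⟩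
  · have e4 : (2 : ℝ) ^ (D * i₀) = (2 : ℝ) ^ ((D : ℝ) * (i₀ : ℝ)) := by
      rw [← Real.rpow_natCast]
      push_cast
      rfl
    rw [e4, hxl]
    refine Real.rpow_le_rpow_of_exponent_le one_le_two ?_
    rw [div_le_iff₀ hc] at hD
    have h5 : c / 2 * ℓ ≤ 2 * i₀ := by linarith
    have h6 : 4 * (i₀ : ℝ) ≤ D * c * i₀ := mul_le_mul_of_nonneg_right hD (by linarith)
    have h7 : c * ℓ ≤ c * (D * i₀) := by linarith
    exact le_of_mul_le_mul_left h7 hc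
  · rw [hxs]
    refine Real.rpow_le_rpow_of_exponent_le one_le_two ?_
    have h5 : (1 - 2 * δ) * (ℓ * (c - 3 * δ) - 1) ≤ (1 - 2 * δ) * i₀ :=
      mul_le_mul_of_nonneg_left (by linarith) (by linarith)
    have h6 : 0 ≤ δ * δ * ℓ := by positivity
    have h7 : δ * ℓ ≤ ε / 14 * ℓ := mul_le_mul_of_nonneg_right hδε.le hl0
    have h8 : δ * ℓ * c ≤ δ * ℓ * 2 := mul_le_mul_of_nonneg_left hc2.le (by positivity)
    nlinarith
  · have hx34 : 0 < x ^ (-(δ * c / 2)) := Real.rpow_pos_of_pos hx0 _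
    have hδc : δ * c / 2 ≤ δ := by nlinarith
    have t1 : (2 : ℝ) ^ (-δ * i₀) ≤ 2 * x ^ (-(δ * c / 2)) := by
      rw [hxs]
      nth_rewrite 2 [← Real.rpow_one 2]
      rw [← Real.rpow_add two_pos]
      refine Real.rpow_le_rpow_of_exponent_le one_le_two ?_
      have h5 : c / 2 * ℓ - 1 ≤ i₀ := by linarith
      nlinarith
    have t2 : x ^ (-δ) ≤ x ^ (-(δ * c / 2)) := Real.rpow_le_rpow_of_exponent_le h1 (by linarith)
    have t3 : 4 / x ^ δ ≤ 4 * x ^ (-(δ * c / 2)) := by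
      rw [div_eq_mul_inv, ← Real.rpow_neg hx0.le]
      exact mul_le_mul_of_nonneg_left t2 (by norm_num)
    have e5 : (x ^ δ / (b * x) ^ 2) ^ (c / 2) = (1 / b ^ 2) ^ (c / 2) * x ^ ((δ - 2) * (c / 2)) := by
      have e6 : x ^ δ / (b * x) ^ 2 = (1 / b ^ 2) * x ^ (δ - 2) := by
        rw [Real.rpow_sub hx0]
        have : x ^ (2 : ℝ) = x ^ 2 := by norm_cast
        rw [this]
        field_simp
      rw [e6, Real.mul_rpow (by positivity) (by positivity), ← Real.rpow_mul hx0.le]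
    have t4 : (2 : ℝ) ^ i₀ * (C₂ * (x ^ δ / (b * x) ^ 2) ^ (c / 2)) ≤ C₃ * x ^ (-(2 * δ)) := by
      have h5 : (2 : ℝ) ^ i₀ * (C₂ * (x ^ δ / (b * x) ^ 2) ^ (c / 2)) ≤
          x ^ (c - 3 * δ) * (C₂ * (x ^ δ / (b * x) ^ 2) ^ (c / 2)) :=
        mul_le_mul_of_nonneg_right ha (by positivity)
      refine h5.trans ?_
      have h6 : x ^ (c - 3 * δ) * (C₂ * (x ^ δ / (b * x) ^ 2) ^ (c / 2)) =
          C₃ * x ^ (c - 3 * δ + (δ - 2) * (c / 2)) := by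
        rw [e5, Real.rpow_add hx0, hC₃]
        ring
      rw [h6]
      refine mul_le_mul_of_nonneg_left (Real.rpow_le_rpow_of_exponent_le h1 ?_) hC₃0
      nlinarith
    have t5 : Real.log (2 * π * (κ₁ * x) + 4) ≤ c₂ * x ^ δ := by
      have h5 : 2 * π * (κ₁ * x) + 4 ≤ (2 * π * κ₁ + 4) * x := by
        have h50 : (2 * π * κ₁ + 4) * x = 2 * π * (κ₁ * x) + 4 * x := by ring
        rw [h50]
        linarith
      have h6 : 0 < 2 * π * (κ₁ * x) + 4 := by positivity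
      refine (Real.log_le_log h6 h5).trans ?_
      refine (Real.log_le_rpow_div (by positivity) hδ).trans (le_of_eq ?_)
      rw [Real.mul_rpow (by positivity) hx0.le, hc₂]
      ring
    have hlog0 : 0 ≤ Real.log (2 * π * (κ₁ * x) + 4) := Real.log_nonneg (by
      have : 0 ≤ 2 * π * (κ₁ * x) := by positivity
      linarith)
    have t6 : (2 : ℝ) ^ i₀ * (C₂ * (x ^ δ / (b * x) ^ 2) ^ (c / 2)) * Real.log (2 * π * (κ₁ * x) + 4) ≤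
        C₃ * c₂ * x ^ (-(δ * c / 2)) := by
      calc _ ≤ C₃ * x ^ (-(2 * δ)) * (c₂ * x ^ δ) :=
            mul_le_mul t4 t5 hlog0 (by positivity)
        _ = C₃ * c₂ * (x ^ (-(2 * δ)) * x ^ δ) := by ring
        _ = C₃ * c₂ * x ^ (-δ) := by
            rw [← Real.rpow_add hx0]
            congr 2
            ring
        _ ≤ C₃ * c₂ * x ^ (-(δ * c / 2)) := mul_le_mul_of_nonneg_left t2 (by positivity)
    have t7 : x ^ (δ * c / 4) * x ^ (-(δ * c / 2)) = x ^ (-(δ * c / 4)) := by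
      rw [← Real.rpow_add hx0]
      congr 1
      ring
    calc _ ≤ C₁ * (2 * x ^ (-(δ * c / 2))) + 4 * x ^ (-(δ * c / 2)) + C₃ * c₂ * x ^ (-(δ * c / 2)) :=
          add_le_add (add_le_add (mul_le_mul_of_nonneg_left t1 hC) t3) t6
      _ = Ct * x ^ (-(δ * c / 2)) := by rw [hCt]; ring
      _ ≤ x ^ (δ * c / 4) * x ^ (-(δ * c / 2)) := mul_le_mul_of_nonneg_right hCx hx34.le
      _ = _ := t7

/-- the doubling, along the powers of two -/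
theorem dbl_sum {α : Td d} {a : ℝ} {b : Td d → ℝ} (hb : Continuous b) {δ : ℝ} (hδ : 0 < δ) {i₀ : ℕ}
    (hlos : ∀ i ≥ i₀, ml α a b (2 ^ i) ≤ (2 : ℝ) ^ ((1 - δ) * i)) :
    ∀ i ≥ i₀, mg α a b (2 ^ i₀) / 2 ^ i₀ - 1 / (2 * (1 - (2 : ℝ) ^ (-δ))) * (2 : ℝ) ^ (-δ * i₀) ≤
      mg α a b (2 ^ i) / 2 ^ i := by
  have hr1 : (2 : ℝ) ^ (-δ) < 1 := Real.rpow_lt_one_of_one_lt_of_neg one_lt_two (by linarith)
  set C₁ : ℝ := 1 / (2 * (1 - (2 : ℝ) ^ (-δ))) with hC₁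
  have hC₁0 : 0 ≤ C₁ := by
    have : 0 < 1 - (2 : ℝ) ^ (-δ) := by linarith
    positivity
  have hC₁' : C₁ * (1 - (2 : ℝ) ^ (-δ)) = 1 / 2 := by
    have : 1 - (2 : ℝ) ^ (-δ) ≠ 0 := by linarith
    rw [hC₁]
    field_simp
  have hp2 : ∀ i : ℕ, (0 : ℝ) < 2 ^ i := fun i => by positivity
  have hstep : ∀ i ≥ i₀, mg α a b (2 ^ i) / 2 ^ i - (2 : ℝ) ^ (-δ * i) / 2 ≤ mg α a b (2 ^ (i + 1)) / 2 ^ (i + 1) := by
    intro i hi
    have e1 : 2 ^ (i + 1) = 2 * 2 ^ i := by rw [pow_succ, mul_comm]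
    have h5 := Pool.Agent.Helper6.AU.dbl (α := α) (a := a) hb (2 ^ i)
    have h6 := hlos i hi
    rw [e1]
    have e2 : (2 : ℝ) ^ ((1 - δ) * i) = 2 ^ i * (2 : ℝ) ^ (-δ * i) := by
      rw [← Real.rpow_natCast, ← Real.rpow_add two_pos]
      congr 1
      ring
    rw [e2] at h6
    have e3 : (2 : ℝ) ^ (i + 1) = 2 * 2 ^ i := by rw [pow_succ, mul_comm]
    rw [e3, sub_le_iff_le_add]
    have h7 := hp2 i
    have h8 : mg α a b (2 ^ i) / 2 ^ i = (2 * mg α a b (2 ^ i)) / (2 * 2 ^ i) := by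
      field_simp
    have h9 : (2 : ℝ) ^ (-δ * i) / 2 = (2 ^ i * (2 : ℝ) ^ (-δ * i)) / (2 * 2 ^ i) := by
      field_simp
    rw [h8, h9, ← add_div]
    exact div_le_div_of_nonneg_right (by linarith) (by positivity)
  have hind : ∀ i ≥ i₀, mg α a b (2 ^ i₀) / 2 ^ i₀ - C₁ * ((2 : ℝ) ^ (-δ * i₀) - (2 : ℝ) ^ (-δ * i)) ≤
      mg α a b (2 ^ i) / 2 ^ i := by
    intro i hi
    induction i, hi using Nat.le_induction with
    | base => simp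
    | succ i hi ih =>
      refine le_trans ?_ (hstep i hi)
      have e1 : (2 : ℝ) ^ (-δ * ((i + 1 : ℕ) : ℝ)) = (2 : ℝ) ^ (-δ * i) * (2 : ℝ) ^ (-δ) := by
        rw [← Real.rpow_add two_pos]
        congr 1
        push_cast
        ring
      rw [e1]
      have e2 : C₁ * ((2 : ℝ) ^ (-δ * i) * (2 : ℝ) ^ (-δ)) = C₁ * (2 : ℝ) ^ (-δ * i) - (2 : ℝ) ^ (-δ * i) / 2 := by
        have e3 : C₁ * (1 - (2 : ℝ) ^ (-δ)) * (2 : ℝ) ^ (-δ * i) = 1 / 2 * (2 : ℝ) ^ (-δ * i) := by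
          rw [hC₁']
        linarith
      have e4 : C₁ * ((2 : ℝ) ^ (-δ * i₀) - (2 : ℝ) ^ (-δ * i) * (2 : ℝ) ^ (-δ)) =
          C₁ * ((2 : ℝ) ^ (-δ * i₀) - (2 : ℝ) ^ (-δ * i)) + (2 : ℝ) ^ (-δ * i) / 2 := by
        rw [mul_sub, mul_sub, e2]
        ring
      rw [e4]
      linarith
  intro i hi
  have h10 := hind i hi
  have h11 : 0 < (2 : ℝ) ^ (-δ * i) := Real.rpow_pos_of_pos two_pos _
  have h12 : C₁ * ((2 : ℝ) ^ (-δ * i₀) - (2 : ℝ) ^ (-δ * i)) ≤ C₁ * (2 : ℝ) ^ (-δ * i₀) :=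
    mul_le_mul_of_nonneg_left (by linarith) hC₁0
  linarith

/-- **U5**: growth, from U3 (`hlosall`) and U4 (`hinit`) -/
theorem growth_of {γ τ : ℝ} (hγ : 0 < γ) {k : ℕ} {e : Fin k → Td d → ℝ} (he : ∀ i, Ho (e i))
    (hlosall : ∀ (D : ℕ) {δ₀ : ℝ}, 0 < δ₀ →
      ∃ δ : ℝ, 0 < δ ∧ δ < δ₀ ∧ ∀ᵐ w ∂lawL d, ∀ c₀ : ℝ, 0 < c₀ → ∃ (i₁ : ℕ) (A₁ : ℝ), ∀ i ≥ i₁, ∀ α : Td d, DC c₀ τ α →
        ∀ (a : ℝ) (U : Fin (k + 1) → ℝ), A₁ ≤ |a| → |a| ≤ 2 ^ (D * i) → (∀ j, |U j| ≤ |a|) →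
        Real.exp (-(2 : ℝ) ^ ((1 - 2 * δ) * i)) ≤ |U 0| →
        ml α a (frc γ e U w) (2 ^ i) ≤ (2 : ℝ) ^ ((1 - δ) * i))
    (hinit : ∀ {c : ℝ}, 0 < c → c < 1 → ∃ C : ℝ, 1 ≤ C ∧ ∀ (d : ℕ) (α : Td d) (a : ℝ) (b : Td d → ℝ) (K : ℝ)
      (n : ℕ), Continuous b → 100 ≤ |a| → 4 ≤ K →
      n * Real.log (π * |a|) - n * (4 / K) - n * (n * (C * (K / a ^ 2) ^ c)) * Real.log (LL a) ≤ mg α a b n)
    {ε : ℝ} (hε : 0 < ε) (hε1 : ε < 2) :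
    ∃ κ : ℝ, 0 < κ ∧ ∀ᵐ w ∂lawL d, ∀ c₀ : ℝ, 0 < c₀ → ∃ A₁ : ℝ, ∀ α : Td d, DC c₀ τ α →
      ∀ (a : ℝ) (U : Fin (k + 1) → ℝ), A₁ ≤ |a| → (∀ j, |U j| ≤ |a|) → Real.exp (-|a| ^ (2 - ε)) ≤ |U 0| →
      ∃ i₀ : ℕ, ∀ i ≥ i₀, Real.log (π * |a|) - |a| ^ (-κ) ≤ mg α a (frc γ e U w) (2 ^ i) / 2 ^ i := by
  set c : ℝ := 2 - ε / 2 with hc_def
  have hc : 0 < c := by linarith
  have hc2 : c < 2 := by linarith
  have hε2 : 0 < ε / 2 := by linarith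
  have hδ₀ : 0 < min (c / 8) (ε / 2 / 14) := lt_min (by positivity) (by positivity)
  obtain ⟨D, hD⟩ := exists_nat_ge (4 / c)
  obtain ⟨δ, hδ, hδ0, hlos⟩ := hlosall D hδ₀
  have hδ8 : δ < c / 8 := hδ0.trans_le (min_le_left _ _)
  have hδε : δ < ε / 2 / 14 := hδ0.trans_le (min_le_right _ _)
  obtain ⟨Cn, hCn, hnu⟩ := hinit (c := c / 2) (by linarith) (by linarith)
  refine ⟨δ * c / 4, by positivity, ?_⟩
  filter_upwards [hlos, Pool.Agent.Helper82.AN.Hw_ae (d := d) hγ] with w hw1 hw2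
  intro c₀ hc₀
  obtain ⟨i₁, A₁, hi₁⟩ := hw1 c₀ hc₀
  have hr1 : (2 : ℝ) ^ (-δ) < 1 := Real.rpow_lt_one_of_one_lt_of_neg one_lt_two (by linarith)
  have hC₁0 : 0 ≤ 1 / (2 * (1 - (2 : ℝ) ^ (-δ))) := by
    have : 0 < 1 - (2 : ℝ) ^ (-δ) := by linarith
    positivity
  have hCn0 : 0 ≤ Cn := zero_le_one.trans hCn
  obtain ⟨X, hX⟩ := scales (ε := ε / 2) hδ hδ8 hδε hc2 one_pos hC₁0 hCn0 one_pos i₁ hD
  refine ⟨max 100 (max X A₁), fun α hα a U hA hU hU0 => ?_⟩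
  have hA1 : 100 ≤ |a| := (le_max_left _ _).trans hA
  have hA2 : X ≤ |a| := ((le_max_left _ _).trans (le_max_right _ _)).trans hA
  have hA3 : A₁ ≤ |a| := ((le_max_right _ _).trans (le_max_right _ _)).trans hA
  obtain ⟨hx1, hbx, hV, i₀, hi0, h4, hqe, herr⟩ := hX |a| hA2
  have hcont : Continuous (frc γ e U w) := frc_cont (fun i => ho_cont (he i)) U hw2
  have hini := hnu d α a (frc γ e U w) (|a| ^ δ) (2 ^ i₀) hcont hA1 hV
  have hdbl := dbl_sum (α := α) (a := a) hcont hδ (i₀ := i₀) fun i hi => by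
    have hil : (i₀ : ℝ) ≤ i := by exact_mod_cast hi
    refine hi₁ i (hi0.trans hi) α hα a U hA3
      (h4.trans (pow_le_pow_right₀ (by norm_num) (Nat.mul_le_mul_left D hi))) hU ?_
    refine le_trans (Real.exp_le_exp.2 (neg_le_neg ?_)) hU0
    have e0 : 2 - ε = c - ε / 2 := by rw [hc_def]; ring
    rw [e0]
    refine hqe.trans (Real.rpow_le_rpow_of_exponent_le one_le_two ?_)
    exact mul_le_mul_of_nonneg_left hil (by linarith)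
  refine ⟨i₀, fun i hi => ?_⟩
  have h10 := hdbl i hi
  have hp2 : (0 : ℝ) < 2 ^ i₀ := by positivity
  have e1 : (1 * |a|) ^ 2 = a ^ 2 := by rw [one_mul, sq_abs]
  have e2 : 2 * π * (1 * |a|) + 4 = LL a := by rw [one_mul]; rfl
  rw [e1, e2] at herr
  have h13 : Real.log (π * |a|) - 4 / |a| ^ δ -
      (2 : ℝ) ^ i₀ * (Cn * (|a| ^ δ / a ^ 2) ^ (c / 2)) * Real.log (LL a) ≤
      mg α a (frc γ e U w) (2 ^ i₀) / 2 ^ i₀ := by
    rw [le_div_iff₀ hp2]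
    refine le_trans (le_of_eq ?_) hini
    push_cast
    ring
  linarith

end Pool.Agent.Helper94.AU
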